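import Pool.Agent.H83.X.T2

/-!
Theorem X, module APA: the bounded function of a kernel.
-/

set_option autoImplicit false

open MeasureTheory ProbabilityTheory Filter Topology Finset
open scoped Nat ENNReal

namespace Pool.Agent.H34.X

open Pool.Agent.H24.T2 (Pset)
open Pool.Agent.H24.AG (ee)
open Pool.Agent.H83.X

theorem ee_norm_apa (x : ℝ) : ‖ee x‖ = 1 := by
  unfold ee
  rw [Complex.norm_exp]
  simp

theorem ee_pow_apa (n : ℕ) (x : ℝ) : ee (n * x) = ee x ^ n := by
  unfold ee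
  rw [← Complex.exp_nat_mul]
  congr 1
  push_cast
  ring

theorem ee_conj_apa (x : ℝ) : (starRingEnd ℂ) (ee x) = ee (-x) := by
  unfold ee
  rw [← Complex.exp_conj]
  congr 1
  have h : (2 : ℂ) * Real.pi * Complex.I * x = ((2 * Real.pi * x : ℝ) : ℂ) * Complex.I := by
    push_cast; ring
  rw [h, map_mul, Complex.conj_ofReal, Complex.conj_I]
  push_cast
  ring

theorem ee_ne_apa {x : ℝ} (h0 : 0 < x) (h1 : x < 1) : ee x ≠ 1 := by
  intro h
  unfold ee at h
  rw [Complex.exp_eq_one_iff] at h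
  obtain ⟨n, hn⟩ := h
  have h2 : (2 * Real.pi * Complex.I : ℂ) ≠ 0 := Complex.two_pi_I_ne_zero
  have h3 : (2 * Real.pi * Complex.I : ℂ) * (x : ℂ) = (2 * Real.pi * Complex.I : ℂ) * ((n : ℝ) : ℂ) := by
    rw [hn]; push_cast; ring
  have h4 : x = (n : ℝ) := by exact_mod_cast mul_left_cancel₀ h2 h3
  rw [h4] at h0 h1
  have h5 : (0 : ℤ) < n := by exact_mod_cast h0
  have h6 : n < (1 : ℤ) := by exact_mod_cast h1
  omega

theorem geom_apa {x : ℝ} (h : ee x ≠ 1) (N : ℕ) : ‖∑ n ∈ range N, ee (n * x)‖ ≤ 2 / ‖ee x - 1‖ := by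
  rw [Finset.sum_congr rfl fun n _ => ee_pow_apa n x, geom_sum_eq h, norm_div]
  refine div_le_div_of_nonneg_right ?_ (norm_nonneg _)
  calc ‖ee x ^ N - 1‖ ≤ ‖ee x ^ N‖ + ‖(1 : ℂ)‖ := norm_sub_le _ _
    _ = 2 := by rw [norm_pow, ee_norm_apa]; norm_num

/-- the segment of the real numbers of absolute value at most one -/
def seg : Set ℂ := (fun r : ℝ => (r : ℂ)) '' Set.Icc (-1) 1

theorem seg_closed : IsClosed seg := (isCompact_Icc.image Complex.continuous_ofReal).isClosed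

theorem seg_ne : seg.Nonempty := ⟨_, 0, by simp, rfl⟩

theorem seg_dist (t e : ℝ) (he : 0 ≤ e) (h : |t| ≤ 1 + e) : Metric.infDist (t : ℂ) seg ≤ e := by
  obtain ⟨h1, h2⟩ := abs_le.mp h
  have hm : ((max (-1) (min 1 t) : ℝ) : ℂ) ∈ seg :=
    ⟨_, ⟨le_max_left _ _, max_le (by norm_num) (min_le_left _ _)⟩, rfl⟩
  refine (Metric.infDist_le_dist_of_mem hm).trans ?_
  rw [Complex.dist_eq, ← Complex.ofReal_sub, Complex.norm_real, Real.norm_eq_abs, abs_le]
  rcases le_total 1 t with h3 | h3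
  · rw [min_eq_left h3, max_eq_right (by norm_num)]
    constructor <;> linarith
  · rw [min_eq_right h3]
    rcases le_total (-1) t with h4 | h4
    · rw [max_eq_right h4]
      constructor <;> linarith
    · rw [max_eq_left h4]
      constructor <;> linarith

theorem pf_APA : T_APA := by
  classical
  intro Ω _ P _ T s A k g mp hs hsb hA h0A hk0 hker hg
  choose r hr0 hr using hker
  -- the kernel means
  set C : ℝ := ∑ γ ∈ A.erase 0, |k γ| * (2 / ‖ee γ - 1‖) with hC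
  have hC0 : 0 ≤ C := sum_nonneg fun γ _ => by positivity
  have hrs : ∀ N : ℕ, ∑ n ∈ range N, r n ≤ N + C := by
    intro N
    have e1 : ((∑ n ∈ range N, r n : ℝ) : ℂ) = N + ∑ γ ∈ A.erase 0, (k γ : ℂ) * ∑ n ∈ range N, ee (n * γ) := by
      have e2 : ((∑ n ∈ range N, r n : ℝ) : ℂ) = ∑ γ ∈ A, (k γ : ℂ) * ∑ n ∈ range N, ee (n * γ) := by
        rw [Complex.ofReal_sum, Finset.sum_congr rfl fun n _ => (hr n).symm, Finset.sum_comm]
        exact Finset.sum_congr rfl fun γ _ => by rw [Finset.mul_sum]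
      rw [e2, ← Finset.add_sum_erase A _ h0A]
      congr 1
      rw [hk0]
      simp [ee_zero]
    have e3 : ‖∑ γ ∈ A.erase 0, (k γ : ℂ) * ∑ n ∈ range N, ee (n * γ)‖ ≤ C := by
      refine (norm_sum_le _ _).trans (sum_le_sum fun γ hγ => ?_)
      obtain ⟨h1, h2⟩ := Finset.mem_erase.mp hγ
      obtain ⟨h3, h4⟩ := hA γ h2
      rw [norm_mul, Complex.norm_real, Real.norm_eq_abs]
      exact mul_le_mul_of_nonneg_left (geom_apa (ee_ne_apa (lt_of_le_of_ne h3 (Ne.symm h1)) h4) N) (abs_nonneg _)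
    have e4 := congrArg Complex.re e1
    rw [Complex.ofReal_re, Complex.add_re, Complex.natCast_re] at e4
    have e5 := Complex.re_le_norm (∑ γ ∈ A.erase 0, (k γ : ℂ) * ∑ n ∈ range N, ee (n * γ))
    linarith
  set F0 : Ω → ℂ := fun ω => ∑ γ ∈ A, (k γ : ℂ) * g γ ω with hF0
  have hF0m : Measurable F0 := Finset.measurable_sum _ fun γ hγ => measurable_const.mul (hg γ hγ).meas
  set S : ℝ → ℕ → Ω → ℂ := fun γ N ω => (∑ n ∈ range N, ee (-(n * γ)) * (s (T^[n] ω) : ℂ)) / N with hS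
  have hSm : ∀ γ N, Measurable (S γ N) := fun γ N =>
    (Finset.measurable_sum _ fun n _ =>
      measurable_const.mul (Complex.measurable_ofReal.comp (hs.comp (T.measurable.iterate n)))).div_const _
  have hSb : ∀ γ N ω, ‖S γ N ω‖ ≤ 1 := by
    intro γ N ω
    rw [hS]
    simp only
    rw [norm_div, Complex.norm_natCast]
    have h1 : ‖∑ n ∈ range N, ee (-(n * γ)) * (s (T^[n] ω) : ℂ)‖ ≤ N := by
      calc _ ≤ ∑ n ∈ range N, ‖ee (-(n * γ)) * (s (T^[n] ω) : ℂ)‖ := norm_sum_le _ _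
        _ ≤ ∑ n ∈ range N, (1 : ℝ) := by
            refine sum_le_sum fun n _ => ?_
            rw [norm_mul, ee_norm_apa, one_mul, Complex.norm_real, Real.norm_eq_abs]
            exact hsb _
        _ = N := by simp
    exact div_le_one_of_le₀ h1 (Nat.cast_nonneg _)
  -- the means with the kernel are real and bounded
  have hGr : ∀ (N : ℕ) (ω : Ω), 0 < N → ∃ t : ℝ, |t| ≤ 1 + C / N ∧ ∑ γ ∈ A, (k γ : ℂ) * S γ N ω = t := by
    intro N ω hN
    have hN' : (0 : ℝ) < N := by exact_mod_cast hN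
    refine ⟨(∑ n ∈ range N, r n * s (T^[n] ω)) / N, ?_, ?_⟩
    · rw [abs_div, Nat.abs_cast, div_le_iff₀ hN']
      calc |∑ n ∈ range N, r n * s (T^[n] ω)| ≤ ∑ n ∈ range N, |r n * s (T^[n] ω)| := abs_sum_le_sum_abs _ _
        _ ≤ ∑ n ∈ range N, r n := by
            refine sum_le_sum fun n _ => ?_
            rw [abs_mul, abs_of_nonneg (hr0 n)]
            exact mul_le_of_le_one_right (hr0 n) (hsb _)
        _ ≤ N + C := hrs N
        _ = (1 + C / N) * N := by field_simp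
    · have e1 : ∀ n : ℕ, ∑ γ ∈ A, (k γ : ℂ) * ee (-(n * γ)) = (r n : ℂ) := by
        intro n
        have e2 := congrArg (starRingEnd ℂ) (hr n)
        rw [map_sum, Complex.conj_ofReal] at e2
        rw [← e2]
        refine Finset.sum_congr rfl fun γ _ => ?_
        rw [map_mul, Complex.conj_ofReal, ee_conj_apa]
      rw [hS]
      simp only
      rw [Complex.ofReal_div, Complex.ofReal_natCast, Complex.ofReal_sum]
      have e3 : ∑ γ ∈ A, (k γ : ℂ) * ((∑ n ∈ range N, ee (-(n * γ)) * (s (T^[n] ω) : ℂ)) / N) =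
          (∑ γ ∈ A, ∑ n ∈ range N, (k γ : ℂ) * (ee (-(n * γ)) * (s (T^[n] ω) : ℂ))) / N := by
        rw [Finset.sum_div]
        refine Finset.sum_congr rfl fun γ _ => ?_
        rw [← Finset.mul_sum, mul_div_assoc]
      rw [e3, Finset.sum_comm]
      congr 1
      refine Finset.sum_congr rfl fun n _ => ?_
      rw [Complex.ofReal_mul, ← e1 n, Finset.sum_mul]
      exact Finset.sum_congr rfl fun γ _ => by ring
  -- the distance to the segment
  set D : Ω → ℝ := fun ω => Metric.infDist (F0 ω) seg with hD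
  have hDm : Measurable D := (Metric.continuous_infDist_pt seg).measurable.comp hF0m
  have hD0 : ∀ ω, 0 ≤ D ω := fun ω => Metric.infDist_nonneg
  set n0 : ℝ := (A.card : ℝ) with hn0
  have hDb : ∀ (N : ℕ), 0 < N → ∀ ω, D ω ^ 2 ≤
      2 * (n0 * ∑ γ ∈ A, k γ ^ 2 * ‖S γ N ω - g γ ω‖ ^ 2) + 2 * (C / N) ^ 2 := by
    intro N hN ω
    obtain ⟨t, ht, htS⟩ := hGr N ω hN
    have hN' : (0 : ℝ) < N := by exact_mod_cast hN
    have h1 : D ω ≤ Metric.infDist (t : ℂ) seg + dist (F0 ω) (t : ℂ) := Metric.infDist_le_infDist_add_dist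
    have h2 := seg_dist t (C / N) (by positivity) ht
    have h3 : dist (F0 ω) (t : ℂ) ≤ ∑ γ ∈ A, |k γ| * ‖S γ N ω - g γ ω‖ := by
      rw [dist_comm, Complex.dist_eq, ← htS, hF0]
      simp only
      rw [← Finset.sum_sub_distrib]
      refine (norm_sum_le _ _).trans (le_of_eq (Finset.sum_congr rfl fun γ _ => ?_))
      rw [← mul_sub, norm_mul, Complex.norm_real, Real.norm_eq_abs]
    have h4 : (∑ γ ∈ A, |k γ| * ‖S γ N ω - g γ ω‖) ^ 2 ≤ n0 * ∑ γ ∈ A, k γ ^ 2 * ‖S γ N ω - g γ ω‖ ^ 2 := by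
      have := sq_sum_le_card_mul_sum_sq (s := A) (f := fun γ => |k γ| * ‖S γ N ω - g γ ω‖)
      refine this.trans (le_of_eq ?_)
      congr 1
      refine Finset.sum_congr rfl fun γ _ => ?_
      rw [mul_pow, sq_abs]
    have h5 : 0 ≤ ∑ γ ∈ A, |k γ| * ‖S γ N ω - g γ ω‖ := sum_nonneg fun γ _ => by positivity
    have h6 : 0 ≤ C / N := by positivity
    have h7 := hD0 ω
    have h8 : D ω ≤ ∑ γ ∈ A, |k γ| * ‖S γ N ω - g γ ω‖ + C / N := by linarith
    have h9 := pow_le_pow_left₀ h7 h8 2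
    nlinarith [sq_nonneg (∑ γ ∈ A, |k γ| * ‖S γ N ω - g γ ω‖ - C / N)]
  have hint : ∀ γ ∈ A, ∀ N, Integrable (fun ω => ‖S γ N ω - g γ ω‖ ^ 2) P := by
    intro γ hγ N
    refine Integrable.of_bound (C := 9) ?_ (Eventually.of_forall fun ω => ?_)
    · exact (((hSm γ N).sub (hg γ hγ).meas).norm.pow_const 2).aestronglyMeasurable
    · rw [Real.norm_eq_abs, abs_of_nonneg (by positivity)]
      have h1 := norm_sub_le (S γ N ω) (g γ ω)
      have h2 := hSb γ N ω
      have h3 := (hg γ hγ).bd ω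
      have h4 := norm_nonneg (S γ N ω - g γ ω)
      nlinarith
  have hlim : Tendsto (fun N : ℕ => 2 * (n0 * ∑ γ ∈ A, k γ ^ 2 * ∫ ω, ‖S γ N ω - g γ ω‖ ^ 2 ∂P) +
      2 * (C / N) ^ 2) atTop (𝓝 0) := by
    have h1 : Tendsto (fun N : ℕ => ∑ γ ∈ A, k γ ^ 2 * ∫ ω, ‖S γ N ω - g γ ω‖ ^ 2 ∂P) atTop (𝓝 0) := by
      have := tendsto_finsetSum A fun γ hγ => ((hg γ hγ).lim.const_mul (k γ ^ 2))
      simpa using this
    have h2 : Tendsto (fun N : ℕ => C / (N : ℝ)) atTop (𝓝 0) := tendsto_const_div_atTop_nhds_zero_nat C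
    have h3 := ((h1.const_mul n0).const_mul 2).add ((h2.pow 2).const_mul 2)
    simpa using h3
  have hDint : ∫ ω, D ω ^ 2 ∂P ≤ 0 := by
    refine ge_of_tendsto hlim ?_
    filter_upwards [eventually_gt_atTop 0] with N hN
    have e1 : ∫ ω, (2 * (n0 * ∑ γ ∈ A, k γ ^ 2 * ‖S γ N ω - g γ ω‖ ^ 2) + 2 * (C / N) ^ 2) ∂P =
        2 * (n0 * ∑ γ ∈ A, k γ ^ 2 * ∫ ω, ‖S γ N ω - g γ ω‖ ^ 2 ∂P) + 2 * (C / N) ^ 2 := by
      rw [integral_add (Integrable.const_mul (Integrable.const_mul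
        (integrable_finsetSum _ fun γ hγ => (hint γ hγ N).const_mul _) _) _) (integrable_const _),
        integral_const_mul, integral_const_mul, integral_finsetSum _ fun γ hγ => (hint γ hγ N).const_mul _]
      congr 1
      · congr 2
        exact Finset.sum_congr rfl fun γ _ => integral_const_mul _ _
      · simp
    rw [← e1]
    refine integral_mono_of_nonneg (Eventually.of_forall fun ω => by positivity) ?_
      (Eventually.of_forall fun ω => hDb N hN ω)
    exact (Integrable.const_mul (Integrable.const_mul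
        (integrable_finsetSum _ fun γ hγ => (hint γ hγ N).const_mul _) _) _).add (integrable_const _)
  have hDi : Integrable (fun ω => D ω ^ 2) P := by
    refine Integrable.mono' (g := fun ω => 2 * (n0 * ∑ γ ∈ A, k γ ^ 2 * ‖S γ 1 ω - g γ ω‖ ^ 2) +
      2 * (C / (1 : ℕ)) ^ 2) ?_ (hDm.pow_const 2).aestronglyMeasurable
      (Eventually.of_forall fun ω => ?_)
    · exact (Integrable.const_mul (Integrable.const_mul
        (integrable_finsetSum _ fun γ hγ => (hint γ hγ 1).const_mul _) _) _).add (integrable_const _)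
    · rw [Real.norm_eq_abs, abs_of_nonneg (by positivity)]
      exact hDb 1 one_pos ω
  have hDae : ∀ᵐ ω ∂P, D ω ^ 2 = 0 := by
    have h1 : ∫ ω, D ω ^ 2 ∂P = 0 := le_antisymm hDint (integral_nonneg fun ω => by positivity)
    have h2 := (integral_eq_zero_iff_of_nonneg (fun ω => by positivity) hDi).mp h1
    filter_upwards [h2] with ω hω
    exact hω
  refine ⟨fun ω => max (-1) (min 1 (F0 ω).re), ?_, ?_, ?_⟩
  · exact measurable_const.max (measurable_const.min (Complex.measurable_re.comp hF0m))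
  · intro ω
    rw [abs_le]
    exact ⟨le_max_left _ _, max_le (by norm_num) (min_le_left _ _)⟩
  · filter_upwards [hDae] with ω hω
    have h1 : D ω = 0 := by
      exact pow_eq_zero_iff (two_ne_zero) |>.mp hω
    have h2 : F0 ω ∈ seg := (seg_closed.mem_iff_infDist_zero seg_ne).mpr h1
    obtain ⟨t, ⟨ht1, ht2⟩, ht⟩ := h2
    have h3 : F0 ω = (t : ℂ) := ht.symm
    change ((max (-1) (min 1 (F0 ω).re) : ℝ) : ℂ) = F0 ω
    rw [h3, Complex.ofReal_re, min_eq_right ht2, max_eq_right ht1]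

end Pool.Agent.H34.X
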