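import Pool.Agent.H83.X.T1

/-!
Theorem X, module PRC: trigonometric polynomials along one class of primes.
-/

set_option autoImplicit false

open MeasureTheory ProbabilityTheory Filter Topology Finset
open scoped Nat ENNReal

namespace Pool.Agent.H34.X

open Pool.Agent.H24.T2 (Pset)
open Pool.Agent.H24.AG (ee)
open Pool.Agent.H67.AG (avgP)
open Pool.Agent.H83.X

theorem ind_irr {a : ℕ} {α : Fin a → ℝ} (hI : Ind α) {k : Fin a → ℤ} (hk : k ≠ 0) :
    Irrational (∑ i, (k i : ℝ) * α i) := by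
  rintro ⟨q, hq⟩
  have h1 : ∑ i, (((q.den : ℤ) * k i : ℤ) : ℝ) * α i = (q.num : ℝ) := by
    have h2 : ∑ i, (((q.den : ℤ) * k i : ℤ) : ℝ) * α i = q.den * ∑ i, (k i : ℝ) * α i := by
      rw [Finset.mul_sum]
      refine Finset.sum_congr rfl fun i _ => ?_
      push_cast
      ring
    rw [h2, ← hq]
    have h3 : (q.den : ℚ) * q = q.num := by rw [mul_comm]; exact Rat.mul_den_eq_num q
    exact_mod_cast h3
  have h4 := hI (fun i => (q.den : ℤ) * k i) q.num h1
  apply hk
  funext i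
  have h5 := congrFun h4 i
  simp only [Pi.zero_apply] at h5 ⊢
  rcases mul_eq_zero.mp h5 with h6 | h6
  · exact absurd h6 (by exact_mod_cast q.den_ne_zero)
  · exact h6

open Classical in
/-- the indicator of the class -/
noncomputable def bp (h L r M u : ℕ) (p : ℕ) : ℝ := if p ≡ u [MOD M] ∧ p * h ≡ r [MOD L] then 1 else 0

theorem bp_per (h L r M u : ℕ) (n : ℕ) : bp h L r M u (n + M * L) = bp h L r M u n := by
  unfold bp
  have h1 : n + M * L ≡ n [MOD M] := by
    unfold Nat.ModEq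
    rw [Nat.add_mul_mod_self_left]
  have h2 : (n + M * L) * h ≡ n * h [MOD L] := by
    have : n + M * L ≡ n [MOD L] := by
      unfold Nat.ModEq
      rw [Nat.add_mul_mod_self_right]
    exact this.mul_right h
  have h3 : (n + M * L ≡ u [MOD M] ∧ (n + M * L) * h ≡ r [MOD L]) ↔ (n ≡ u [MOD M] ∧ n * h ≡ r [MOD L]) :=
    ⟨fun ⟨x, y⟩ => ⟨h1.symm.trans x, h2.symm.trans y⟩, fun ⟨x, y⟩ => ⟨h1.trans x, h2.trans y⟩⟩
  rw [if_congr h3 rfl rfl]

theorem term_prc (h L r M u p : ℕ) (hL : 0 < L) (hr : r < L) (b : ℝ) :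
    (bp h L r M u p : ℂ) * ee ((((p * h - r) / L : ℕ) : ℝ) * b) =
      (bp h L r M u p : ℂ) * (ee (h * b / L * p) * ee (-(r * b / L))) := by
  unfold bp
  split_ifs with hc
  · congr 1
    rw [← ee_add]
    congr 1
    have h1 : (p * h) % L = r := by
      have := hc.2
      unfold Nat.ModEq at this
      rw [this, Nat.mod_eq_of_lt hr]
    have h2 := Nat.div_add_mod (p * h) L
    have h3 : (p * h - r) / L = p * h / L := by
      have : p * h - r = L * (p * h / L) := by omega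
      rw [this, Nat.mul_div_cancel_left _ hL]
    rw [h3]
    have h4 : (p : ℝ) * h = L * ((p * h / L : ℕ) : ℝ) + r := by
      rw [h1] at h2
      exact_mod_cast h2.symm
    have h5 : (L : ℝ) ≠ 0 := by positivity
    have h6 : ((p * h / L : ℕ) : ℝ) = (p * h - r) / L := by
      rw [eq_div_iff h5]
      linarith
    rw [h6]
    field_simp
    ring
  · simp

theorem pf_PRC (hV : T_VWC) : T_PRC := by
  classical
  intro a α s d w h L r M u η hI h0 hw hh hL hM hr hη
  set be : (Fin a → ℤ) → ℝ := fun k => ∑ i, (k i : ℝ) * α i with hbe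
  set th : (Fin a → ℤ) → ℝ := fun k => h * be k / L with hth
  have h1 : ∀ k ∈ s.erase 0, Tendsto (fun m => ‖d k‖ *
      (‖∑ p ∈ Pset 2 m, (w p : ℂ) * (bp h L r M u p : ℂ) * ee (th k * p)‖ / (Pset 2 m).card)) atTop (𝓝 0) := by
    intro k hk
    have hk0 : k ≠ 0 := (Finset.mem_erase.mp hk).1
    have hirr : Irrational (th k) := by
      have e1 := ind_irr hI hk0
      have e2 : Irrational ((((h : ℚ) / L : ℚ) : ℝ) * be k) := e1.ratCast_mul (by positivity)
      have e3 : (((h : ℚ) / L : ℚ) : ℝ) * be k = th k := by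
        rw [hth]
        push_cast
        ring
      rwa [e3] at e2
    have := (hV w (M * L) (bp h L r M u) (th k) hw (by positivity) (bp_per h L r M u) hirr).const_mul ‖d k‖
    rwa [mul_zero] at this
  have h2 : Tendsto (fun m => ∑ k ∈ s.erase 0, ‖d k‖ *
      (‖∑ p ∈ Pset 2 m, (w p : ℂ) * (bp h L r M u p : ℂ) * ee (th k * p)‖ / (Pset 2 m).card)) atTop (𝓝 0) := by
    have := tendsto_finsetSum (s.erase 0) fun k hk => h1 k hk
    simpa using this
  obtain ⟨m₀, hm₀⟩ := Filter.eventually_atTop.mp (h2.eventually (gt_mem_nhds hη))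
  refine ⟨m₀, fun m hm => ?_⟩
  refine le_trans ?_ (hm₀ m hm).le
  have e1 : avgP 2 m (fun p => if p ≡ u [MOD M] ∧ p * h ≡ r [MOD L] then
        w p * (tv α s d ((p * h - r) / L)).re else 0) =
      (∑ p ∈ Pset 2 m, (w p : ℂ) * (bp h L r M u p : ℂ) * tv α s d ((p * h - r) / L)).re / (Pset 2 m).card := by
    unfold avgP
    rw [Complex.re_sum]
    congr 1
    refine Finset.sum_congr rfl fun p _ => ?_
    unfold bp
    beta_reduce
    by_cases hc : p ≡ u [MOD M] ∧ p * h ≡ r [MOD L]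
    · rw [if_pos hc, if_pos hc, Complex.ofReal_one, mul_one, Complex.re_ofReal_mul]
    · rw [if_neg hc, if_neg hc]
      simp
  have e2 : (d 0).re * avgP 2 m (fun p => if p ≡ u [MOD M] ∧ p * h ≡ r [MOD L] then w p else 0) =
      (∑ p ∈ Pset 2 m, (w p : ℂ) * (bp h L r M u p : ℂ) * d 0).re / (Pset 2 m).card := by
    unfold avgP
    rw [Complex.re_sum, ← mul_div_assoc, Finset.mul_sum]
    congr 1
    refine Finset.sum_congr rfl fun p _ => ?_
    unfold bp
    by_cases hc : p ≡ u [MOD M] ∧ p * h ≡ r [MOD L]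
    · rw [if_pos hc, if_pos hc, Complex.ofReal_one, mul_one, Complex.re_ofReal_mul]
      ring
    · rw [if_neg hc, if_neg hc]
      simp
  rw [e1, e2, ← sub_div, ← Complex.sub_re, abs_div, Nat.abs_cast]
  have e3 : ∑ p ∈ Pset 2 m, (w p : ℂ) * (bp h L r M u p : ℂ) * tv α s d ((p * h - r) / L) -
      ∑ p ∈ Pset 2 m, (w p : ℂ) * (bp h L r M u p : ℂ) * d 0 =
      ∑ k ∈ s.erase 0, d k * ee (-(r * be k / L)) *
        ∑ p ∈ Pset 2 m, (w p : ℂ) * (bp h L r M u p : ℂ) * ee (th k * p) := by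
    rw [← Finset.sum_sub_distrib]
    simp only [Finset.mul_sum]
    rw [Finset.sum_comm]
    refine Finset.sum_congr rfl fun p _ => ?_
    have e4 : tv α s d ((p * h - r) / L) = d 0 + ∑ k ∈ s.erase 0, d k * ee ((((p * h - r) / L : ℕ) : ℝ) * be k) := by
      unfold tv
      rw [← Finset.add_sum_erase s _ h0]
      congr 1
      simp [ee_zero]
    rw [e4, mul_add, add_sub_cancel_left, Finset.mul_sum]
    refine Finset.sum_congr rfl fun k _ => ?_
    have e5 := term_prc h L r M u p hL hr (be k)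
    calc (w p : ℂ) * (bp h L r M u p : ℂ) * (d k * ee ((((p * h - r) / L : ℕ) : ℝ) * be k)) =
        (w p : ℂ) * d k * ((bp h L r M u p : ℂ) * ee ((((p * h - r) / L : ℕ) : ℝ) * be k)) := by ring
      _ = d k * ee (-(r * be k / L)) * ((w p : ℂ) * (bp h L r M u p : ℂ) * ee (th k * p)) := by
        rw [e5, hth]; ring
  rw [e3]
  have e6 := Complex.abs_re_le_norm (∑ k ∈ s.erase 0, d k * ee (-(r * be k / L)) *
        ∑ p ∈ Pset 2 m, (w p : ℂ) * (bp h L r M u p : ℂ) * ee (th k * p))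
  have e7 : ‖∑ k ∈ s.erase 0, d k * ee (-(r * be k / L)) *
        ∑ p ∈ Pset 2 m, (w p : ℂ) * (bp h L r M u p : ℂ) * ee (th k * p)‖ ≤
      ∑ k ∈ s.erase 0, ‖d k‖ * ‖∑ p ∈ Pset 2 m, (w p : ℂ) * (bp h L r M u p : ℂ) * ee (th k * p)‖ := by
    refine (norm_sum_le _ _).trans (le_of_eq ?_)
    refine Finset.sum_congr rfl fun k _ => ?_
    rw [norm_mul, norm_mul]
    have : ‖ee (-(r * be k / L))‖ = 1 := by
      unfold ee
      rw [Complex.norm_exp]
      simp
    rw [this, mul_one]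
  refine (div_le_div_of_nonneg_right (e6.trans e7) (Nat.cast_nonneg (α := ℝ) (Pset 2 m).card)).trans (le_of_eq ?_)
  rw [Finset.sum_div]
  exact Finset.sum_congr rfl fun k _ => mul_div_assoc _ _ _

end Pool.Agent.H34.X
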