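import Pool.Agent.H83.X.T1

/-!
Theorem X, module VWC: exponential sums over primes with a periodic factor.
-/

set_option autoImplicit false

open MeasureTheory ProbabilityTheory Filter Topology Finset
open scoped Nat ENNReal

namespace Pool.Agent.H34.X

open Pool.Agent.H24.T2 (Pset)
open Pool.Agent.H24.AG (ee)
open Pool.Agent.H83.X

theorem ee_nat_mul (n : ℕ) (x : ℝ) : ee (n * x) = ee x ^ n := by
  unfold ee
  rw [← Complex.exp_nat_mul]
  congr 1
  push_cast
  ring

theorem ee_int_vwc (n : ℤ) : ee (n : ℝ) = 1 := by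
  unfold ee
  rw [Complex.exp_eq_one_iff]
  exact ⟨n, by push_cast; ring⟩

theorem ee_eq_one_vwc {x : ℝ} (h : ee x = 1) : ∃ n : ℤ, x = n := by
  unfold ee at h
  rw [Complex.exp_eq_one_iff] at h
  obtain ⟨n, hn⟩ := h
  refine ⟨n, ?_⟩
  have h1 : (2 * Real.pi * Complex.I : ℂ) ≠ 0 := Complex.two_pi_I_ne_zero
  have h2 : (2 * Real.pi * Complex.I : ℂ) * (x : ℂ) = (2 * Real.pi * Complex.I : ℂ) * ((n : ℝ) : ℂ) := by
    rw [hn]; push_cast; ring
  exact_mod_cast mul_left_cancel₀ h1 h2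

theorem geo_vwc (M : ℕ) (hM : 0 < M) (n r : ℕ) (hr : r < M) :
    ∑ j ∈ range M, ee (j * (((n : ℝ) - r) / M)) = if r = n % M then (M : ℂ) else 0 := by
  have hM' : (M : ℝ) ≠ 0 := by positivity
  have h1 : ∀ j ∈ range M, ee (j * (((n : ℝ) - r) / M)) = ee (((n : ℝ) - r) / M) ^ j := fun j _ =>
    ee_nat_mul j _
  rw [Finset.sum_congr rfl h1]
  split_ifs with h
  · have h2 : ee (((n : ℝ) - r) / M) = 1 := by
      have h3 : ((n : ℝ) - r) / M = ((n / M : ℕ) : ℤ) := by
        rw [div_eq_iff hM', h]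
        have h4 := Nat.div_add_mod n M
        have h5 : (n : ℝ) = M * ((n / M : ℕ) : ℝ) + ((n % M : ℕ) : ℝ) := by exact_mod_cast h4.symm
        rw [Int.cast_natCast]
        linarith
      rw [h3]
      exact ee_int_vwc _
    rw [h2]
    simp
  · have h2 : ee (((n : ℝ) - r) / M) ≠ 1 := by
      intro h3
      obtain ⟨k, hk⟩ := ee_eq_one_vwc h3
      rw [div_eq_iff hM'] at hk
      have h4 : (n : ℤ) - r = k * M := by exact_mod_cast hk
      apply h
      have h5 : ((r : ℤ)) % M = (n : ℤ) % M := by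
        have : (n : ℤ) = r + k * M := by linarith
        rw [this, Int.add_mul_emod_self_right]
      have h6 : r % M = n % M := by exact_mod_cast h5
      rw [← h6, Nat.mod_eq_of_lt hr]
    rw [geom_sum_eq h2]
    have h3 : ee (((n : ℝ) - r) / M) ^ M = 1 := by
      rw [← ee_nat_mul]
      have : (M : ℝ) * (((n : ℝ) - r) / M) = (((n : ℤ) - (r : ℤ) : ℤ) : ℝ) := by
        push_cast
        field_simp
      rw [this]
      exact ee_int_vwc _
    rw [h3, sub_self, zero_div]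

/-- the Fourier coefficients of a periodic function -/
noncomputable def fb (M : ℕ) (B : ℕ → ℝ) (j : ℕ) : ℂ :=
  (M : ℂ)⁻¹ * ∑ r ∈ range M, (B r : ℂ) * ee (-(j * (r / M) : ℝ))

theorem inv_vwc (M : ℕ) (hM : 0 < M) (B : ℕ → ℝ) (hB : ∀ n, B (n + M) = B n) (n : ℕ) :
    (B n : ℂ) = ∑ j ∈ range M, fb M B j * ee (n * (j / M : ℝ)) := by
  have hM' : (M : ℂ) ≠ 0 := by exact_mod_cast hM.ne'
  have hper : B n = B (n % M) := by
    have : Function.Periodic B M := hB
    exact (this.map_mod_nat n).symm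
  have h1 : ∑ j ∈ range M, fb M B j * ee (n * (j / M : ℝ)) =
      (M : ℂ)⁻¹ * ∑ r ∈ range M, (B r : ℂ) * ∑ j ∈ range M, ee (j * (((n : ℝ) - r) / M)) := by
    unfold fb
    simp only [Finset.mul_sum, Finset.sum_mul]
    rw [Finset.sum_comm]
    refine Finset.sum_congr rfl fun r _ => Finset.sum_congr rfl fun j _ => ?_
    have h2 : ee (j * (((n : ℝ) - r) / M)) = ee (-(j * (r / M) : ℝ)) * ee (n * (j / M : ℝ)) := by
      rw [← ee_add]
      congr 1
      ring
    rw [h2]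
    ring
  rw [h1, Finset.sum_congr rfl fun r hr => by rw [geo_vwc M hM n r (Finset.mem_range.mp hr)]]
  have h3 : ∑ r ∈ range M, (B r : ℂ) * (if r = n % M then (M : ℂ) else 0) = (B (n % M) : ℂ) * M := by
    rw [Finset.sum_eq_single (n % M)]
    · rw [if_pos rfl]
    · intro r _ hr
      rw [if_neg hr, mul_zero]
    · intro h
      exact absurd (Finset.mem_range.mpr (Nat.mod_lt _ hM)) h
  rw [h3, hper]
  field_simp

theorem pf_VWC (h : T_VWT) : T_VWC := by
  intro w M B θ hw hM hB hθ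
  have h1 : ∀ j : ℕ, Tendsto (fun m => ‖fb M B j‖ * (‖∑ p ∈ Pset 2 m, (w p : ℂ) * ee ((θ + (j : ℝ) / M) * p)‖ /
      (Pset 2 m).card)) atTop (𝓝 0) := by
    intro j
    have hi : Irrational (θ + (j : ℝ) / M) := by
      have := hθ.add_ratCast ((j : ℚ) / M)
      push_cast at this
      exact this
    have := (h w hw _ hi).const_mul ‖fb M B j‖
    rwa [mul_zero] at this
  have h2 : Tendsto (fun m => ∑ j ∈ range M, ‖fb M B j‖ *
      (‖∑ p ∈ Pset 2 m, (w p : ℂ) * ee ((θ + (j : ℝ) / M) * p)‖ / (Pset 2 m).card)) atTop (𝓝 0) := by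
    have := tendsto_finsetSum (range M) fun j _ => h1 j
    simpa using this
  refine squeeze_zero (fun m => by positivity) (fun m => ?_) h2
  have h3 : ∑ p ∈ Pset 2 m, (w p : ℂ) * (B p : ℂ) * ee (θ * p) =
      ∑ j ∈ range M, fb M B j * ∑ p ∈ Pset 2 m, (w p : ℂ) * ee ((θ + (j : ℝ) / M) * p) := by
    simp only [Finset.mul_sum]
    rw [Finset.sum_comm]
    refine Finset.sum_congr rfl fun p _ => ?_
    rw [inv_vwc M hM B hB p, Finset.mul_sum, Finset.sum_mul]
    refine Finset.sum_congr rfl fun j _ => ?_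
    have h4 : ee ((θ + (j : ℝ) / M) * p) = ee (p * (j / M : ℝ)) * ee (θ * p) := by
      rw [← ee_add]
      congr 1
      ring
    rw [h4]
    ring
  rw [h3]
  have h5 : ‖∑ j ∈ range M, fb M B j * ∑ p ∈ Pset 2 m, (w p : ℂ) * ee ((θ + (j : ℝ) / M) * p)‖ ≤
      ∑ j ∈ range M, ‖fb M B j‖ * ‖∑ p ∈ Pset 2 m, (w p : ℂ) * ee ((θ + (j : ℝ) / M) * p)‖ := by
    refine (norm_sum_le _ _).trans (le_of_eq ?_)
    exact Finset.sum_congr rfl fun j _ => norm_mul _ _
  have h6 := div_le_div_of_nonneg_right h5 (Nat.cast_nonneg (α := ℝ) (Pset 2 m).card)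
  refine h6.trans (le_of_eq ?_)
  rw [Finset.sum_div]
  exact Finset.sum_congr rfl fun j _ => mul_div_assoc _ _ _

end Pool.Agent.H34.X
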